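import Mathlib
import Pool.Agent.H19.LCAEnt

set_option autoImplicit false

namespace Pool.Agent.Results.MP_5d7a45_an.Uniform

open MeasureTheory Pool.Agent.H19.LCAEnt Topology
open scoped Pointwise

universe u

/-- The algebraic entropy of an endomorphism of an LCA group equals that of its restriction to an
invariant subgroup that is closed or discrete and has compact quotient. -/
theorem result {G : Type u} [AddCommGroup G] [TopologicalSpace G] [IsTopologicalAddGroup G]
    [LocallyCompactSpace G] [T2Space G] [MeasurableSpace G] [BorelSpace G] (μ : Measure G)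
    [μ.IsAddHaarMeasure] (φ : G →+ G) (hφ : Continuous φ) (K : AddSubgroup G)
    (hK : DiscreteTopology K ∨ IsClosed (K : Set G)) [CompactSpace (G ⧸ K)]
    (hinv : ∀ x ∈ K, φ x ∈ K) (ν : Measure K) [ν.IsAddHaarMeasure] :
    hA μ φ = hA ν (res φ K hinv) := by
  have hcl : IsClosed (K : Set G) := hK.elim (fun _ => AddSubgroup.isClosed_of_discrete) id
  refine le_antisymm (iSup₂_le fun C hC => ?_) (res_le μ hφ _ hcl _ _)
  obtain ⟨D, -, h1⟩ := (isCompact_univ (X := G ⧸ K)).elim_nhds_subcover
    (fun q => QuotientAddGroup.mk '' ((· - q.out) ⁻¹' interior C)) fun q _ =>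
      (QuotientAddGroup.isOpenMap_coe _ (isOpen_interior.preimage (continuous_sub_right _))).mem_nhds
        ⟨q.out, by simpa using mem_interior_iff_mem_nhds.mpr hC.2, q.out_eq'⟩
  let E : Set G := insert 0 (Quotient.out '' (D : Set (G ⧸ K)))
  have hE : IsCompact E := ((D.finite_toSet.image _).insert 0).isCompact
  have h2 : E + C ∈ 𝓝 0 := add_nhds (Set.mem_insert ..) hC.2
  obtain ⟨F, h3, h4⟩ := fin_cover hφ (hE.add hC.1) K fun x => by
    obtain ⟨q, hq, y, h5, h6⟩ := Set.mem_iUnion₂.mp (h1 (Set.mem_univ (x : G ⧸ K)))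
    refine ⟨-y + x, QuotientAddGroup.eq.mp h6, ?_⟩
    rw [show x - (-y + x) = q.out + (y - q.out) by abel]
    exact subset_interior_add_right ⟨_, Set.mem_insert_of_mem _ ⟨q, hq, rfl⟩, _, h5, rfl⟩
  refine le_trans (cmp (c := 1) (fun n => real_pos μ (T_compact hφ hC.1 _) (T_nhds _ hC.2 n))
    (fun n => real_pos μ (T_compact hφ (hE.add hC.1) _) (T_nhds _ h2 n)) fun n => ?_)
    (le_res μ hφ _ hcl _ _ (hE.add hC.1) h2
      ((F.finite_toSet.preimage K.subtype_injective.injOn).insert 0) (Set.mem_insert ..)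
      (h4.trans (Set.add_subset_add_right fun x hx =>
        ⟨⟨x, h3 hx⟩, Set.mem_insert_of_mem _ hx, rfl⟩)))
  rw [one_mul]
  exact measureReal_mono (Set.finsetSum_subset_finsetSum _ _ _ fun i _ =>
    Set.image_mono (Set.subset_add_right _ (Set.mem_insert ..)))
    (T_compact hφ (hE.add hC.1) _).measure_lt_top.ne

end Pool.Agent.Results.MP_5d7a45_an.Uniform
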